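import Pool.Agent.P8H64.GP.Stm

/-!
Project GP, package SQ: the mean square length of a standard Gaussian vector.
-/

set_option autoImplicit false

namespace Pool.Agent.P8H24.GP

open MeasureTheory ProbabilityTheory Pool.Agent.P8H64.GP

theorem sq_int : Integrable (fun x : ℝ => x ^ 2) (gaussianReal 0 1) :=
  (memLp_id_gaussianReal (μ := 0) (v := 1) 2).integrable_sq

theorem sq_val : ∫ x, x ^ 2 ∂(gaussianReal 0 1) = 1 := by
  have h := variance_id_gaussianReal (μ := 0) (v := 1)
  rw [variance_of_integral_eq_zero measurable_id.aemeasurable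
    (by simpa using integral_id_gaussianReal (μ := 0) (v := 1))] at h
  simpa using h

theorem sq : S_SQ := by
  intro r
  have hmp : ∀ k : Fin r, MeasurePreserving (fun v : Fin r → ℝ => v k) (gr r) (gaussianReal 0 1) :=
    fun k => measurePreserving_eval (fun _ : Fin r => gaussianReal 0 1) k
  have hint : ∀ k : Fin r, Integrable (fun v : Fin r → ℝ => v k ^ 2) (gr r) := fun k =>
    (hmp k).integrable_comp_of_integrable sq_int
  refine ⟨integrable_finset_sum _ fun k _ => hint k, ?_⟩
  rw [integral_finset_sum _ fun k _ => hint k]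
  have hk : ∀ k : Fin r, ∫ v : Fin r → ℝ, v k ^ 2 ∂(gr r) = 1 := by
    intro k
    have h1 : ∫ x, x ^ 2 ∂((gr r).map (fun v : Fin r → ℝ => v k)) =
        ∫ v : Fin r → ℝ, v k ^ 2 ∂(gr r) :=
      integral_map (hmp k).measurable.aemeasurable
        (by fun_prop)
    rw [← h1, (hmp k).map_eq, sq_val]
  simp only [hk]
  simp

end Pool.Agent.P8H24.GP
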